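import Pool.Agent.MP_a0341c_al.Model

/-! Counting cyclic orders modulo a prime. -/

namespace Pool.Agent.MP_a0341c_al

open Finset Equiv

lemma sum_fixed {S : Type*} [Fintype S] [DecidableEq S] {p : ℕ} [Fact p.Prime]
    (φ : Function.End S) (hφ : φ ^ p = 1) (T : S → ZMod p) (hT : ∀ s, T (φ s) = T s) :
    ∑ s, T s = ∑ s ∈ univ.filter (fun s => φ s = s), T s := by
  rw [← Finset.sum_fiberwise univ T, ← Finset.sum_fiberwise (univ.filter (fun s => φ s = s)) T]
  refine Finset.sum_congr rfl fun c _ => ?_
  rw [Finset.sum_congr rfl (g := fun _ => c) (fun s hs => (Finset.mem_filter.1 hs).2),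
    Finset.sum_congr rfl (g := fun _ => c) (fun s hs => (Finset.mem_filter.1 hs).2),
    Finset.sum_const, Finset.sum_const, nsmul_eq_mul, nsmul_eq_mul]
  congr 1
  let f : Function.End {s // T s = c} := fun s => ⟨φ s.1, (hT s.1).trans s.2⟩
  have h1 : ∀ (m : ℕ) (s : {s // T s = c}), ((f ^ m) s).1 = (φ ^ m) s.1 := by
    intro m
    induction m with
    | zero => intro s; rfl
    | succ m ih =>
      intro s
      rw [pow_succ, pow_succ]
      exact ih (f s)
  have h2 : f ^ p ^ 1 = 1 := by
    funext s
    apply Subtype.ext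
    rw [pow_one, h1, hφ]
    rfl
  have h3 := Perm.card_fixedPoints_modEq h2
  rw [ZMod.natCast_eq_natCast_iff]
  have h4 : Fintype.card {s // T s = c} = #{s ∈ univ | T s = c} := Fintype.card_subtype _
  have h5 : Fintype.card f.fixedPoints = #{s ∈ univ.filter (fun s => φ s = s) | T s = c} := by
    rw [← Fintype.card_coe]
    refine Fintype.card_congr ⟨fun s => ⟨s.1.1, ?_⟩, fun s => ⟨⟨s.1, ?_⟩, ?_⟩, ?_, ?_⟩
    · simp only [Finset.mem_filter, Finset.mem_univ, true_and]
      exact ⟨congrArg Subtype.val s.2, s.1.2⟩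
    · exact (Finset.mem_filter.1 s.2).2
    · exact Subtype.ext (Finset.mem_filter.1 (Finset.mem_filter.1 s.2).1).2
    · intro s; rfl
    · intro s; rfl
  rw [← h4, ← h5]
  exact h3

section Word
variable {A : Type*} [Ring A]

/-- ordered product over the residues -/
def word (p : ℕ) (x : ZMod p → A) : A := ((List.range p).map fun i : ℕ => x (i : ZMod p)).prod

lemma ofFn_word (q : ℕ) (x : ZMod (q + 1) → A) :
    (List.ofFn fun i : Fin (q + 1) => x i).prod = word (q + 1) x := by
  unfold word
  congr 1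
  apply List.ext_getElem
  · simp
  · intro i h1 h2
    simp only [List.getElem_ofFn, List.getElem_map, List.getElem_range]
    congr 1
    apply Fin.ext
    have : i < q + 1 := by simpa using h1
    exact (ZMod.val_cast_of_lt this).symm

lemma std_zmod (q : ℕ) (x : ZMod (q + 1) → A) :
    std (q + 1) x = ∑ σ : Perm (ZMod (q + 1)), Perm.sign σ • word (q + 1) fun i => x (σ i) := by
  rw [std_apply]
  refine Finset.sum_congr rfl fun σ _ => ?_
  rw [← ofFn_word]
  rfl

variable {R : Type*} [CommRing R] {n : ℕ}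

lemma trace_word_shift (q : ℕ) (x : ZMod (q + 1) → Matrix (Fin n) (Fin n) R) :
    (word (q + 1) fun i => x (i + 1)).trace = (word (q + 1) x).trace := by
  unfold word
  conv_lhs => rw [List.range_succ]
  conv_rhs => rw [List.range_succ_eq_map]
  simp only [List.map_append, List.prod_append, List.map_cons, List.map_nil, List.prod_cons,
    List.prod_nil, mul_one, List.map_map]
  rw [Matrix.trace_mul_comm]
  have : ((q : ℕ) : ZMod (q + 1)) + 1 = ((0 : ℕ) : ZMod (q + 1)) := by
    have := ZMod.natCast_self (q + 1)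
    push_cast at this ⊢
    exact this
  rw [this]
  congr 4
  funext i
  simp

lemma trace_word_shift' (q : ℕ) (x : ZMod (q + 1) → Matrix (Fin n) (Fin n) R) (s : ZMod (q + 1)) :
    (word (q + 1) fun i => x (i + s)).trace = (word (q + 1) x).trace := by
  rw [← ZMod.natCast_zmod_val s]
  induction s.val with
  | zero => simp
  | succ m ih =>
    rw [← ih, ← trace_word_shift q fun i => x (i + m)]
    congr 2
    funext i
    congr 1
    push_cast
    ring

lemma sign_addRight {q : ℕ} (hq : Even q) (s : ZMod (q + 1)) :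
    Perm.sign (Equiv.addRight s : Perm (ZMod (q + 1))) = 1 := by
  have h1 : (Equiv.addRight s : Perm (ZMod (q + 1))) ^ (q + 1) = 1 := by
    rw [Equiv.nsmul_addRight]
    have : (q + 1) • s = 0 := by
      rw [nsmul_eq_mul, ZMod.natCast_self, zero_mul]
    rw [this]
    simp
  have h2 := congrArg Perm.sign h1
  rw [map_pow, map_one] at h2
  obtain ⟨r, hr⟩ := hq
  have h3 : q = 2 * r := by omega
  generalize Perm.sign (Equiv.addRight s : Perm (ZMod (q + 1))) = u at h2 ⊢
  rw [h3, pow_succ, pow_mul, Int.units_sq, one_pow, one_mul] at h2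
  exact h2

/-- the signed trace of a word -/
def TT (q : ℕ) (x : ZMod (q + 1) → Matrix (Fin n) (Fin n) R) (σ : Perm (ZMod (q + 1))) : R :=
  Perm.sign σ • (word (q + 1) fun i => x (σ i)).trace

/-- the sum over cyclic orders -/
def tau (q : ℕ) (x : ZMod (q + 1) → Matrix (Fin n) (Fin n) R) : R :=
  ∑ σ : {σ : Perm (ZMod (q + 1)) // σ 0 = 0}, TT q x σ.1

lemma TT_shift {q : ℕ} (hq : Even q) (x : ZMod (q + 1) → Matrix (Fin n) (Fin n) R)
    (σ : Perm (ZMod (q + 1))) (s : ZMod (q + 1)) : TT q x (σ * Equiv.addRight s) = TT q x σ := by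
  unfold TT
  rw [map_mul, sign_addRight hq, mul_one, ← trace_word_shift' q (fun i => x (σ i)) s]
  rfl

lemma trace_std {q : ℕ} (hq : Even q) (x : ZMod (q + 1) → Matrix (Fin n) (Fin n) R) :
    (std (q + 1) x).trace = (q + 1) • tau q x := by
  rw [std_zmod, Matrix.trace_sum]
  let E : ZMod (q + 1) × {σ : Perm (ZMod (q + 1)) // σ 0 = 0} ≃ Perm (ZMod (q + 1)) :=
    { toFun := fun z => z.2.1 * Equiv.addRight z.1
      invFun := fun σ => (-σ.symm 0, ⟨σ * Equiv.addRight (σ.symm 0), by simp⟩)
      left_inv := by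
        rintro ⟨s, σ, hσ⟩
        have : (σ * Equiv.addRight s).symm 0 = -s := by
          rw [Equiv.symm_apply_eq]; simp [hσ]
        refine Prod.ext ?_ (Subtype.ext ?_)
        · simp only [this, neg_neg]
        · simp only [this]
          ext i
          simp
      right_inv := by
        intro σ
        ext i
        simp }
  rw [← Equiv.sum_comp E, Fintype.sum_prod_type]
  have : ∀ s : ZMod (q + 1), ∑ σ : {σ : Perm (ZMod (q + 1)) // σ 0 = 0},
      (Perm.sign (E (s, σ)) • word (q + 1) fun i => x (E (s, σ) i)).trace = tau q x := by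
    intro s
    refine Finset.sum_congr rfl fun σ _ => ?_
    rw [← TT_shift hq x σ.1 s, Matrix.trace_smul]
    rfl
  simp only [this]
  rw [Finset.sum_const, Finset.card_univ, ZMod.card]

lemma map_tau {R' : Type*} [CommRing R'] (φ : R →+* R') (q : ℕ)
    (x : ZMod (q + 1) → Matrix (Fin n) (Fin n) R) :
    φ (tau q x) = tau q fun a => φ.mapMatrix (x a) := by
  unfold tau TT word
  rw [map_sum]
  refine Finset.sum_congr rfl fun σ _ => ?_
  rw [Units.smul_def, Units.smul_def, map_zsmul, AddMonoidHom.map_trace]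
  congr 2
  have := map_list_prod φ.mapMatrix ((List.range (q + 1)).map fun i : ℕ => x (σ.1 (i : ZMod (q + 1))))
  rw [List.map_map] at this
  exact this

end Word

section Prime
variable {k n : ℕ} [hp : Fact (2 * k + 1).Prime]

lemma sign_mulLeft (d : (ZMod (2 * k + 1))ˣ) :
    (((Perm.sign (Units.mulLeft d : Perm (ZMod (2 * k + 1))) : ℤˣ) : ℤ) : ZMod (2 * k + 1)) =
      (d : ZMod (2 * k + 1)) ^ k := by
  let v : Fin (2 * k + 1) → ZMod (2 * k + 1) := fun i => i
  have hv : (Matrix.vandermonde v).det ≠ 0 :=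
    Matrix.det_vandermonde_ne_zero_iff.2 fun a b h => h
  have h1 := Matrix.det_permute (n := Fin (2 * k + 1)) (Units.mulLeft d) (Matrix.vandermonde v)
  have h2 := Matrix.det_mul_row (fun j : Fin (2 * k + 1) => (d : ZMod (2 * k + 1)) ^ (j : ℕ))
    (Matrix.vandermonde v)
  have h3 : (Matrix.vandermonde v).submatrix (Units.mulLeft d : Perm (ZMod (2 * k + 1))) id =
      Matrix.of fun i j : Fin (2 * k + 1) => (d : ZMod (2 * k + 1)) ^ (j : ℕ) *
        Matrix.vandermonde v i j := by
    funext i j
    show ((d : ZMod (2 * k + 1)) * v i) ^ (j : ℕ) = (d : ZMod (2 * k + 1)) ^ (j : ℕ) * v i ^ (j : ℕ)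
    rw [mul_pow]
  have h4 := mul_right_cancel₀ hv (h1.symm.trans ((congrArg Matrix.det h3).trans h2))
  refine Eq.trans h4 ?_
  rw [Finset.prod_pow_eq_pow_sum, Fin.sum_univ_eq_sum_range (fun i => i)]
  have h5 : ∑ i ∈ range (2 * k + 1), i = k * (2 * k + 1) := by
    have := Finset.sum_range_id_mul_two (2 * k + 1)
    rw [Nat.add_sub_cancel] at this
    nlinarith
  rw [h5, pow_mul, ZMod.pow_card]

lemma word_conj {A : Type*} [Ring A] {p : ℕ} (g : ZMod p → A) (hg : ∀ a b, g (a + b) = g a * g b)
    (h0 : g 0 = 1) (y : ZMod p → A) (t : ZMod p) :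
    word p (fun i => g t * y i * g (-t)) = g t * word p y * g (-t) := by
  unfold word
  have h1 : g (-t) * g t = 1 := by rw [← hg, neg_add_cancel, h0]
  have h2 : g t * g (-t) = 1 := by rw [← hg, add_neg_cancel, h0]
  induction List.range p with
  | nil => simp [h2]
  | cons a l ih =>
    simp only [List.map_cons, List.prod_cons, ih]
    simp only [mul_assoc]
    rw [← mul_assoc (g (-t)), h1, one_mul]

lemma word_lin {A : Type*} [Ring A] {p : ℕ} (g : ZMod p → A) (hg : ∀ a b, g (a + b) = g a * g b)
    (h0 : g 0 = 1) (u : A) (d : ZMod p) :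
    word p (fun i => g (d * i) * u * g (-(d * i))) = (u * g d) ^ p := by
  have : ∀ m : ℕ, ((List.range m).map fun i : ℕ => g (d * i) * u * g (-(d * i))).prod =
      (u * g d) ^ m * g (-(d * m)) := by
    intro m
    induction m with
    | zero => simp [h0]
    | succ m ih =>
      rw [List.range_succ, List.map_append, List.prod_append, ih, pow_succ]
      simp only [List.map_cons, List.map_nil, List.prod_cons, List.prod_nil, mul_one, mul_assoc]
      rw [← mul_assoc (g _) (g _), ← hg, neg_add_cancel, h0, one_mul, ← hg]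
      congr 3
      push_cast
      ring
  unfold word
  rw [this, ZMod.natCast_self, mul_zero, neg_zero, h0, mul_one]

/-- translation acting on cyclic orders -/
def sh {p : ℕ} [NeZero p] (t : ZMod p) : Function.End {σ : Perm (ZMod p) // σ 0 = 0} :=
  fun σ => ⟨Equiv.addRight t * σ.1 * Equiv.addRight (σ.1.symm (-t)), by simp⟩

lemma sh_add {p : ℕ} [NeZero p] (s t : ZMod p) : sh (s + t) = sh s * sh t := by
  funext σ
  apply Subtype.ext
  show _ = (sh s (sh t σ)).1
  have : (sh t σ).1.symm (-s) = σ.1.symm (-(s + t)) - σ.1.symm (-t) := by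
    rw [Equiv.symm_apply_eq]
    simp [sh]
  ext i
  conv_rhs => rw [sh]
  simp only [this]
  simp [sh]
  ring_nf

lemma sh_pow {p : ℕ} [NeZero p] : sh (1 : ZMod p) ^ p = 1 := by
  have h0 : sh (0 : ZMod p) = 1 := by
    funext σ
    apply Subtype.ext
    have : σ.1.symm 0 = 0 := by rw [Equiv.symm_apply_eq, σ.2]
    ext i
    show _ = σ.1 i
    simp [sh, this]
  have : ∀ m : ℕ, sh (1 : ZMod p) ^ m = sh (m : ZMod p) := by
    intro m
    induction m with
    | zero => simp [h0]
    | succ m ih => rw [pow_succ, ih, ← sh_add]; simp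
  rw [this, ZMod.natCast_self, h0]

lemma tau_conj (g : ZMod (2 * k + 1) → Matrix (Fin n) (Fin n) (ZMod (2 * k + 1)))
    (hg : ∀ a b, g (a + b) = g a * g b) (h0 : g 0 = 1)
    (u : Matrix (Fin n) (Fin n) (ZMod (2 * k + 1))) :
    tau (2 * k) (fun a => g a * u * g (-a)) =
      ∑ d : (ZMod (2 * k + 1))ˣ, (d : ZMod (2 * k + 1)) ^ k * (u * g d).trace := by
  have hq : Even (2 * k) := even_two_mul k
  unfold tau
  rw [sum_fixed (sh 1) sh_pow]
  · symm
    refine Finset.sum_bij (fun d _ => ⟨Units.mulLeft d, by simp⟩) ?_ ?_ ?_ ?_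
    · intro d _
      simp only [Finset.mem_filter, Finset.mem_univ, true_and]
      apply Subtype.ext
      have : (Units.mulLeft d : Perm (ZMod (2 * k + 1))).symm (-1) = -(d⁻¹ : (ZMod (2 * k + 1))ˣ) := by
        rw [Equiv.symm_apply_eq]
        show _ = (d : ZMod (2 * k + 1)) * _
        rw [mul_neg, Units.mul_inv]
      ext i
      simp only [sh, this]
      show (d : ZMod (2 * k + 1)) * (i + -((d⁻¹ : (ZMod (2 * k + 1))ˣ) : ZMod (2 * k + 1))) + 1 = d * i
      rw [mul_add, mul_neg, Units.mul_inv]
      ring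
    · intro d _ d' _ h
      have := congrArg (fun σ => σ.1 1) h
      simpa [Units.ext_iff] using this
    · intro σ hσ
      have h1 := (Finset.mem_filter.1 hσ).2
      set c := σ.1.symm (-1) with hc
      have h2 : ∀ i, σ.1 (i + c) + 1 = σ.1 i := fun i => by
        have := congrArg (fun σ => σ.1 i) h1
        simpa [sh] using this
      have hc0 : c ≠ 0 := by
        intro h
        have := h2 0
        rw [h, add_zero, σ.2] at this
        simp at this
      have h3 : ∀ m : ℕ, σ.1 (m * c) = -m := by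
        intro m
        induction m with
        | zero => simp [σ.2]
        | succ m ih =>
          have := h2 (m * c)
          rw [ih] at this
          push_cast
          rw [add_mul, one_mul]
          linear_combination this
      refine ⟨Units.mk0 (-c⁻¹) (by simpa using hc0), Finset.mem_univ _, Subtype.ext ?_⟩
      ext i
      have := h3 (i * c⁻¹).val
      rw [ZMod.natCast_zmod_val, mul_assoc, inv_mul_cancel₀ hc0, mul_one] at this
      rw [this]
      simp [mul_comm]
    · intro d _
      unfold TT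
      rw [Units.smul_def, zsmul_eq_mul, sign_mulLeft]
      congr 1
      have := word_lin g hg h0 u d
      show _ = (word (2 * k + 1) fun i => g (d * i) * u * g (-(d * i))).trace
      rw [this, ZMod.trace_pow_card, ZMod.pow_card]
  · intro σ
    show TT _ _ (Equiv.addRight 1 * σ.1 * Equiv.addRight _) = _
    rw [TT_shift hq]
    unfold TT
    rw [map_mul, sign_addRight hq, one_mul]
    congr 1
    have := word_conj g hg h0 (fun i => g (σ.1 i) * u * g (-σ.1 i)) 1
    have h1 : g (-1) * g 1 = 1 := by rw [← hg, neg_add_cancel, h0]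
    have h2 : (word (2 * k + 1) fun i => g (σ.1 i) * u * g (-σ.1 i)).trace =
        (g 1 * (word (2 * k + 1) fun i => g (σ.1 i) * u * g (-σ.1 i)) * g (-1)).trace := by
      rw [Matrix.trace_mul_comm, ← mul_assoc, h1, one_mul]
    rw [h2, ← this]
    congr 2
    funext i
    show g (σ.1 i + 1) * u * g (-(σ.1 i + 1)) = _
    rw [add_comm (σ.1 i) 1, hg, neg_add_rev, hg]
    simp only [mul_assoc]

end Prime

end Pool.Agent.MP_a0341c_al
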