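import Mathlib

/-! The standard polynomial evaluated on the span of the conjugates of `e ^ k`. -/

namespace Pool.Agent.MP_a0341c_al

open Polynomial Finset Equiv

section Std
variable {A B : Type*} [Ring A] [Ring B]

/-- the standard polynomial in `d` letters -/
noncomputable def std (d : ℕ) : A [⋀^Fin d]→ₗ[ℤ] A :=
  MultilinearMap.alternatization (MultilinearMap.mkPiAlgebraFin ℤ d A)

lemma std_apply {d : ℕ} (x : Fin d → A) :
    std d x = ∑ σ : Perm (Fin d), Perm.sign σ • (List.ofFn fun i => x (σ i)).prod := by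
  simp [std, MultilinearMap.alternatization_apply]

lemma map_std {d : ℕ} (φ : A →+* B) (x : Fin d → A) :
    φ (std d x) = std d fun i => φ (x i) := by
  simp only [std_apply, map_sum]
  refine Finset.sum_congr rfl fun σ _ => ?_
  rw [Units.smul_def, Units.smul_def, map_zsmul, map_list_prod, List.map_ofFn]
  rfl

lemma comm_prod (y : A) : ∀ (d : ℕ) (x : Fin d → A),
    y * (List.ofFn x).prod - (List.ofFn x).prod * y =
      ∑ i, (List.ofFn (Function.update x i (y * x i - x i * y))).prod
  | 0, x => by simp
  | d + 1, x => by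
    rw [Fin.sum_univ_succ, List.ofFn_succ, List.prod_cons, List.ofFn_succ, List.prod_cons]
    have h1 : ∀ i : Fin d, (List.ofFn (Function.update x i.succ (y * x i.succ - x i.succ * y))).prod
        = x 0 * (List.ofFn (Function.update (fun j : Fin d => x j.succ) i
          (y * x i.succ - x i.succ * y))).prod := by
      intro i
      rw [List.ofFn_succ, List.prod_cons, Function.update_of_ne (Fin.succ_ne_zero i).symm]
      congr 3
      funext j
      by_cases h : j = i
      · subst h; simp
      · rw [Function.update_of_ne h, Function.update_of_ne (fun h' => h (Fin.succ_injective _ h'))]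
    simp only [h1]
    rw [← Finset.mul_sum, ← comm_prod y d fun j => x j.succ]
    have h2 : (List.ofFn fun i : Fin d =>
        Function.update x 0 (y * x 0 - x 0 * y) i.succ) = List.ofFn fun i : Fin d => x i.succ := by
      congr 1
    rw [h2, Function.update_self]
    noncomm_ring

lemma comm_std (y : A) {d : ℕ} (x : Fin d → A) :
    y * std d x - std d x * y = ∑ i, std d (Function.update x i (y * x i - x i * y)) := by
  simp only [std_apply]
  rw [Finset.mul_sum, Finset.sum_mul, ← Finset.sum_sub_distrib, Finset.sum_comm]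
  refine Finset.sum_congr rfl fun σ _ => ?_
  rw [← Finset.smul_sum, mul_smul_comm, smul_mul_assoc, ← smul_sub, comm_prod]
  congr 1
  symm
  rw [← Equiv.sum_comp σ]
  symm
  refine Finset.sum_congr rfl fun i _ => ?_
  congr 2
  funext j
  by_cases h : j = i
  · subst h; simp
  · rw [Function.update_of_ne h, Function.update_of_ne (fun h' => h (σ.injective h'))]

lemma std_mulVec {d : ℕ} (M : Matrix (Fin d) (Fin d) ℤ) (x : Fin d → A) :
    std d (fun a => ∑ m, M a m • x m) = M.det • std d x := by
  let L : (Fin d → ℤ) →ₗ[ℤ] A := Fintype.linearCombination ℤ x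
  have key : (std d).compLinearMap L = Matrix.detRowAlternating.smulRight (std d x) := by
    refine Module.Basis.ext_alternating (Pi.basisFun ℤ (Fin d)) fun v hv => ?_
    let σ : Perm (Fin d) := Equiv.ofBijective v (Finite.injective_iff_bijective.1 hv)
    have h1 : (fun i => L (Pi.basisFun ℤ (Fin d) (v i))) = x ∘ σ := by
      funext i
      simp [L, σ, Fintype.linearCombination_apply_single]
    have h2 : (fun i => Pi.basisFun ℤ (Fin d) (v i)) = (1 : Matrix (Fin d) (Fin d) ℤ) ∘ σ := by
      funext i j
      simp [σ, Matrix.one_apply, Pi.single_apply, eq_comm]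
    rw [AlternatingMap.compLinearMap_apply, h1, AlternatingMap.map_perm,
      AlternatingMap.smulRight_apply, h2, AlternatingMap.map_perm]
    have : Matrix.detRowAlternating (1 : Matrix (Fin d) (Fin d) ℤ) = 1 := Matrix.det_one
    rw [this, Units.smul_def, Units.smul_def, smul_eq_mul, mul_one]
  have := congrArg (fun F => F M) key
  simpa [L, Fintype.linearCombination_apply, Matrix.det] using this

/-- the three relations of `sl₂` -/
structure Rel (e h f : A) : Prop where
  he : h * e - e * h = 2 * e
  hf : h * f - f * h = -(2 * f)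
  ef : e * f - f * e = h

/-- the conjugate of `e` by `exp (X f)` -/
noncomputable def Ep (e h f : A) : A[X] := C e - C h * X - C f * X ^ 2

/-- `(ad f) ^ m (e ^ k) / m!` -/
noncomputable def uu (e h f : A) (k m : ℕ) : A := (Ep e h f ^ k).coeff m

/-- the standard polynomial on the elements `uu` -/
noncomputable def SS (e h f : A) (k : ℕ) : A := std (2 * k + 1) fun m => uu e h f k m

lemma map_uu (φ : A →+* B) (e h f : A) (k m : ℕ) :
    φ (uu e h f k m) = uu (φ e) (φ h) (φ f) k m := by
  unfold uu
  rw [← Polynomial.coeff_map, Polynomial.map_pow]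
  simp [Ep]

lemma map_SS (φ : A →+* B) (e h f : A) (k : ℕ) : φ (SS e h f k) = SS (φ e) (φ h) (φ f) k := by
  unfold SS
  rw [map_std]
  simp only [map_uu]

lemma natDegree_Ep_pow (e h f : A) (k : ℕ) : (Ep e h f ^ k).natDegree ≤ 2 * k := by
  have : (Ep e h f).natDegree ≤ 2 := by
    unfold Ep
    refine (natDegree_sub_le _ _).trans (max_le ((natDegree_sub_le _ _).trans (max_le ?_ ?_)) ?_)
    · simp
    · exact (natDegree_C_mul_le _ _).trans (natDegree_X_le.trans (by norm_num))
    · exact (natDegree_C_mul_le _ _).trans (natDegree_X_pow_le 2)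
  exact natDegree_pow_le.trans (by nlinarith)

lemma uu_top (e h f : A) (k m : ℕ) (hm : 2 * k < m) : uu e h f k m = 0 :=
  coeff_eq_zero_of_natDegree_lt ((natDegree_Ep_pow e h f k).trans_lt hm)

lemma uu_zero (e h f : A) (k : ℕ) : uu e h f k 0 = e ^ k := by
  unfold uu
  induction k with
  | zero => simp
  | succ k ih => rw [pow_succ, mul_coeff_zero, ih, pow_succ]; simp [Ep]

variable {e h f : A}

lemma f_Ep (r : Rel e h f) : C f * Ep e h f - Ep e h f * C f = derivative (Ep e h f) := by
  have h1 : C f * C e - C e * C f = -(C h : A[X]) := by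
    rw [← C_mul, ← C_mul, ← C_sub, ← C_neg, ← r.ef]; congr 1; noncomm_ring
  have h2 : C f * C h - C h * C f = (C f + C f : A[X]) := by
    rw [← C_mul, ← C_mul, ← C_sub, ← C_add]; congr 1
    have := r.hf
    rw [two_mul] at this
    rw [← neg_sub, this]; simp
  have x1 : X * C f = C f * (X : A[X]) := X_mul_C f
  have x2 : X ^ 2 * C f = C f * (X ^ 2 : A[X]) := X_pow_mul_C f 2
  have e1 : C f * Ep e h f - Ep e h f * C f = (C f * C e - C e * C f)
      - (C f * C h - C h * C f) * X := by
    unfold Ep
    simp only [mul_sub, sub_mul, mul_assoc, x1, x2]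
    noncomm_ring
  rw [e1, h1, h2]
  unfold Ep
  simp only [derivative_sub, derivative_C, derivative_mul, derivative_X, zero_mul, zero_add, mul_one,
    pow_two, one_mul, zero_sub]
  noncomm_ring

lemma e_Ep (r : Rel e h f) :
    C e * Ep e h f - Ep e h f * C e = 2 * X * Ep e h f - X ^ 2 * derivative (Ep e h f) := by
  have h1 : C e * C f - C f * C e = (C h : A[X]) := by
    rw [← C_mul, ← C_mul, ← C_sub, r.ef]
  have h2 : C h * C e - C e * C h = (C e + C e : A[X]) := by
    rw [← C_mul, ← C_mul, ← C_sub, ← C_add, r.he, two_mul]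
  have x1 : ∀ a : A, X * C a = C a * (X : A[X]) := fun a => X_mul_C a
  have x2 : X ^ 2 * C e = C e * (X ^ 2 : A[X]) := X_pow_mul_C e 2
  have e1 : C e * Ep e h f - Ep e h f * C e = (C h * C e - C e * C h) * X
      - (C e * C f - C f * C e) * X ^ 2 := by
    unfold Ep
    simp only [mul_sub, sub_mul, mul_assoc, x1, x2]
    noncomm_ring
  rw [e1, h1, h2]
  have x3 : ∀ (a : A) (q : A[X]), X * (C a * q) = C a * (X * q) := fun a q => by
    rw [← mul_assoc, x1, mul_assoc]
  unfold Ep
  simp only [derivative_sub, derivative_C, derivative_mul, derivative_X, zero_mul, zero_add, mul_one,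
    pow_two, one_mul, zero_sub, two_mul, mul_sub, mul_add, add_mul, mul_neg, mul_assoc, x1, x3]
  noncomm_ring

lemma f_Ep_pow (r : Rel e h f) (k : ℕ) :
    C f * Ep e h f ^ k - Ep e h f ^ k * C f = derivative (Ep e h f ^ k) := by
  induction k with
  | zero => simp
  | succ k ih =>
    rw [pow_succ, derivative_mul, ← ih, ← f_Ep r]
    noncomm_ring

lemma e_Ep_pow (r : Rel e h f) (k : ℕ) :
    C e * Ep e h f ^ k - Ep e h f ^ k * C e =
      ((2 * k : ℕ) : A[X]) * X * Ep e h f ^ k - X ^ 2 * derivative (Ep e h f ^ k) := by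
  induction k with
  | zero => simp
  | succ k ih =>
    have x1 : ∀ q : A[X], q * X = X * q := fun q => (X_mul (p := q)).symm
    have e1 : C e * Ep e h f ^ (k + 1) - Ep e h f ^ (k + 1) * C e =
        (C e * Ep e h f ^ k - Ep e h f ^ k * C e) * Ep e h f +
          Ep e h f ^ k * (C e * Ep e h f - Ep e h f * C e) := by
      rw [pow_succ]; noncomm_ring
    rw [e1, ih, e_Ep r, pow_succ (Ep e h f), derivative_mul]
    have x2 : ∀ q q' : A[X], q * (X * q') = X * (q * q') := fun q q' => by
      rw [← mul_assoc, x1, mul_assoc]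
    push_cast
    simp only [pow_two, mul_sub, sub_mul, mul_add, add_mul, mul_assoc, two_mul, x2, mul_one]
    have x3 : ∀ q : A[X], (k : A[X]) * (X * q) = X * ((k : A[X]) * q) := fun q => x2 _ _
    noncomm_ring

lemma f_uu (r : Rel e h f) (k m : ℕ) :
    f * uu e h f k m - uu e h f k m * f = (m + 1 : ℕ) • uu e h f k (m + 1) := by
  have := congrArg (fun q => q.coeff m) (f_Ep_pow r k)
  simp only [coeff_sub, coeff_C_mul, coeff_mul_C, coeff_derivative] at this
  unfold uu
  rw [this, nsmul_eq_mul, (Nat.cast_commute _ _).eq]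
  push_cast
  rfl

lemma e_uu_zero (e h f : A) (k : ℕ) :
    e * uu e h f k 0 - uu e h f k 0 * e = 0 := by
  rw [uu_zero, sub_eq_zero]
  exact ((Commute.refl e).pow_right k).eq

lemma e_uu (r : Rel e h f) (k m : ℕ) :
    e * uu e h f k (m + 1) - uu e h f k (m + 1) * e = ((2 * k : ℤ) - m) • uu e h f k m := by
  have := congrArg (fun q : A[X] => q.coeff (m + 1)) (e_Ep_pow r k)
  simp only [coeff_sub, coeff_C_mul, coeff_mul_C] at this
  unfold uu
  rw [this, mul_assoc, ← C_eq_natCast, coeff_C_mul, coeff_X_mul, pow_two, mul_assoc, coeff_X_mul]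
  cases m with
  | zero => simp [zsmul_eq_mul]
  | succ m =>
    rw [coeff_X_mul, coeff_derivative, zsmul_eq_mul]
    have : (Ep e h f ^ k).coeff (m + 1) * ((m : A) + 1) =
        ((m : A) + 1) * (Ep e h f ^ k).coeff (m + 1) := by
      have := (Nat.cast_commute (m + 1) ((Ep e h f ^ k).coeff (m + 1))).eq
      push_cast at this
      exact this.symm
    rw [this]
    push_cast
    rw [sub_mul]

lemma f_SS (r : Rel e h f) (k : ℕ) : f * SS e h f k = SS e h f k * f := by
  rw [← sub_eq_zero]
  unfold SS
  rw [comm_std]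
  refine Finset.sum_eq_zero fun i _ => ?_
  rw [f_uu r, ← natCast_zsmul, AlternatingMap.map_update_smul]
  by_cases hi : (i : ℕ) + 1 < 2 * k + 1
  · have : uu e h f k (i + 1) = (fun m : Fin (2 * k + 1) => uu e h f k m) ⟨i + 1, hi⟩ := rfl
    rw [this, AlternatingMap.map_update_self, smul_zero]
    intro h'
    have := congrArg Fin.val h'
    simp at this
  · rw [uu_top e h f k _ (by omega), AlternatingMap.map_update_zero, smul_zero]

lemma e_SS (r : Rel e h f) (k : ℕ) : e * SS e h f k = SS e h f k * e := by
  rw [← sub_eq_zero]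
  unfold SS
  rw [comm_std]
  refine Finset.sum_eq_zero fun i _ => ?_
  obtain ⟨i, hi⟩ := i
  cases i with
  | zero =>
    show std _ (Function.update _ _ (e * uu e h f k 0 - uu e h f k 0 * e)) = 0
    rw [e_uu_zero, AlternatingMap.map_update_zero]
  | succ i =>
    show std _ (Function.update _ _ (e * uu e h f k (i + 1) - uu e h f k (i + 1) * e)) = 0
    rw [e_uu r, AlternatingMap.map_update_smul]
    have : uu e h f k i = (fun m : Fin (2 * k + 1) => uu e h f k m) ⟨i, by omega⟩ := rfl
    rw [this, AlternatingMap.map_update_self, smul_zero]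
    intro h'
    have := congrArg Fin.val h'
    simp at this

/-- the conjugate of `e` by `exp (a f)` -/
def Ea (e h f : A) (a : ℤ) : A := e - a • h - (a ^ 2) • f

lemma Ea_pow (e h f : A) (k : ℕ) (a : ℤ) :
    Ea e h f a ^ k = ∑ m : Fin (2 * k + 1), a ^ (m : ℕ) • uu e h f k m := by
  let φ : A[X] →+* A := eval₂RingHom' (RingHom.id A) (a : A)
    (fun x => (Int.cast_commute a x).symm)
  have h1 : φ (Ep e h f) = Ea e h f a := by
    have c1 := (Int.cast_commute a h).eq
    have c2 := (Int.cast_commute (a ^ 2) f).eq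
    push_cast at c2
    simp only [φ, Ep, Ea, map_sub, map_mul, map_pow, zsmul_eq_mul]
    simp [eval₂RingHom', c1, c2]
  rw [← h1, ← map_pow]
  show eval₂ (RingHom.id A) (a : A) (Ep e h f ^ k) = _
  rw [eval₂_eq_sum_range' (RingHom.id A) (Nat.lt_succ_of_le (natDegree_Ep_pow e h f k)),
    Finset.sum_range]
  refine Finset.sum_congr rfl fun m _ => ?_
  have c2 := (Int.cast_commute (a ^ (m : ℕ)) (uu e h f k m)).eq
  push_cast at c2
  rw [zsmul_eq_mul]
  push_cast
  rw [c2]
  rfl

lemma std_Ea (e h f : A) (k : ℕ) :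
    std (2 * k + 1) (fun a => Ea e h f ((a : ℕ) : ℤ) ^ k) =
      (Matrix.vandermonde fun a : Fin (2 * k + 1) => ((a : ℕ) : ℤ)).det • SS e h f k := by
  unfold SS
  rw [← std_mulVec]
  congr 1
  funext a
  rw [Ea_pow]
  rfl

end Std

end Pool.Agent.MP_a0341c_al
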