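import Mathlib

/-! General facts on finite-dimensional modules over an `sl₂`-triple. -/

namespace Pool.Agent.MP_a0341c_al

open Finset Module LieModule

variable {L : Type*} [LieRing L] [LieAlgebra ℂ L] {M : Type*} [AddCommGroup M] [Module ℂ M]
  [LieRingModule L M] [LieModule ℂ L M] {h e f : L}

lemma mem_of_sum_eigen {V : Type*} [AddCommGroup V] [Module ℂ V] (T : V →ₗ[ℂ] V)
    (p : Submodule ℂ V) (hp : ∀ v ∈ p, T v ∈ p) {ι : Type*} (μ : ι → ℂ)
    (hμ : Function.Injective μ) (s : Finset ι) : ∀ (v : ι → V), (∀ i, T (v i) = μ i • v i) →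
      ∑ i ∈ s, v i ∈ p → ∀ i ∈ s, v i ∈ p := by
  classical
  induction s using Finset.induction_on with
  | empty => simp
  | insert a s ha ih =>
    intro v hv hs
    have h1 : ∑ i ∈ s, (μ i - μ a) • v i ∈ p := by
      have := p.sub_mem (hp _ hs) (p.smul_mem (μ a) hs)
      rw [map_sum, Finset.smul_sum, ← Finset.sum_sub_distrib, Finset.sum_insert ha, hv, sub_self,
        zero_add] at this
      simpa only [hv, sub_smul] using this
    have h2 : ∀ i ∈ s, v i ∈ p := fun i hi => by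
      have := ih (fun i => (μ i - μ a) • v i) (fun i => by rw [map_smul, hv, smul_comm]) h1 i hi
      exact (p.smul_mem_iff (sub_ne_zero.2 fun h' => ha ((hμ h' : i = a) ▸ hi))).1 this
    intro i hi
    rcases Finset.mem_insert.1 hi with rfl | hi
    · rw [Finset.sum_insert ha] at hs
      exact (p.add_mem_iff_left (p.sum_mem h2)).1 hs
    · exact h2 i hi

lemma h_e_pow (t : IsSl2Triple h e f) (j : ℕ) (v : M) :
    ⁅h, (toEnd ℂ L M e ^ j) v⁆ =
      (toEnd ℂ L M e ^ j) ⁅h, v⁆ + (2 * j : ℂ) • (toEnd ℂ L M e ^ j) v := by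
  induction j with
  | zero => simp
  | succ j ih =>
    simp only [pow_succ', Module.End.mul_apply, toEnd_apply_apply]
    rw [leibniz_lie h, t.lie_h_e_smul ℂ, ih, lie_add, lie_smul, smul_lie]
    push_cast
    module

lemma e_pow_f (t : IsSl2Triple h e f) (j : ℕ) (v : M) :
    (toEnd ℂ L M e ^ (j + 1)) ⁅f, v⁆ = ⁅f, (toEnd ℂ L M e ^ (j + 1)) v⁆ +
      (j + 1 : ℂ) • (toEnd ℂ L M e ^ j) (⁅h, v⁆ + (j : ℂ) • v) := by
  induction j with
  | zero => simp [leibniz_lie e f, t.lie_e_f, add_comm]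
  | succ j ih =>
    rw [pow_succ', Module.End.mul_apply, ih, toEnd_apply_apply, lie_add, leibniz_lie e f, t.lie_e_f,
      h_e_pow t, lie_smul]
    simp only [pow_succ', Module.End.mul_apply, toEnd_apply_apply, map_add, map_smul, lie_add,
      lie_smul]
    push_cast
    module

lemma nilp [FiniteDimensional ℂ M] (t : IsSl2Triple h e f) : ∃ R, toEnd ℂ L M e ^ R = 0 := by
  by_contra! hne
  let T : Module.End ℂ (Module.End ℂ M) :=
    LinearMap.mulLeft ℂ (toEnd ℂ L M h) - LinearMap.mulRight ℂ (toEnd ℂ L M h)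
  have := Module.End.eigenvectors_linearIndependent' T (fun j : ℕ => (2 * j : ℂ))
    (fun a b hab => by simpa using hab) (fun j => toEnd ℂ L M e ^ j) fun j => by
      refine ⟨?_, hne j⟩
      rw [Module.End.mem_eigenspace_iff]
      ext v
      simp [T, h_e_pow t]
  exact Module.Finite.not_linearIndependent_of_infinite _ this

lemma f_eq_zero [FiniteDimensional ℂ M] (t : IsSl2Triple h e f) (v : M) (hv : ⁅e, ⁅f, v⁆⁆ = 0) :
    ⁅f, v⁆ = 0 := by
  obtain ⟨R, hR⟩ := nilp (M := M) t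
  have : ∀ (R : ℕ) (v : M), ⁅e, ⁅f, v⁆⁆ = 0 → (toEnd ℂ L M e ^ R) v = 0 → ⁅f, v⁆ = 0 := by
    intro R
    induction R with
    | zero => intro v _ h2; simp [show v = 0 by simpa using h2]
    | succ R ih =>
      intro v h1 h2
      have h3 := e_pow_f t R v
      rw [h2, pow_succ, Module.End.mul_apply, toEnd_apply_apply, h1, map_zero, lie_zero, zero_add,
        eq_comm, smul_eq_zero] at h3
      have h4 := h3.resolve_left (Nat.cast_add_one_ne_zero R)
      have h5 : ⁅f, ⁅h, v⁆ + (R : ℂ) • v⁆ = ⁅h, ⁅f, v⁆⁆ + (R + 2 : ℂ) • ⁅f, v⁆ := by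
        rw [leibniz_lie h f, t.lie_lie_smul_f ℂ, lie_add, lie_smul, neg_lie, smul_lie]
        module
      have h6 := ih _ (by
        rw [h5, lie_add, lie_smul, h1, leibniz_lie e h, h1, ← lie_skew, t.lie_h_e_smul ℂ, neg_lie,
          smul_lie, h1]
        simp) h4
      by_contra hne
      have P : t.HasPrimitiveVectorWith ⁅f, v⁆ (-(R + 2) : ℂ) :=
        ⟨hne, by rw [neg_smul]; exact eq_neg_of_add_eq_zero_left (h5 ▸ h6), h1⟩
      obtain ⟨m, hm⟩ := P.exists_nat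
      have : (m : ℂ) + (R + 2) = 0 := by rw [← hm]; ring
      have h7 : m + (R + 2) = 0 := by exact_mod_cast this
      omega
  exact this R v hv (by rw [hR]; rfl)

lemma exists_decomp [FiniteDimensional ℂ M] (t : IsSl2Triple h e f) (y : M) :
    ∃ z w : M, y = ⁅f, z⁆ + w ∧ ⁅e, w⁆ = 0 := by
  have h1 : LinearMap.range (toEnd ℂ L M f) ⊓ LinearMap.ker (toEnd ℂ L M e) = ⊥ := by
    rw [eq_bot_iff]
    rintro _ ⟨⟨v, rfl⟩, hv⟩
    exact f_eq_zero t v hv
  have h2 : LinearMap.range (toEnd ℂ L M e) ⊓ LinearMap.ker (toEnd ℂ L M f) = ⊥ := by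
    rw [eq_bot_iff]
    rintro _ ⟨⟨v, rfl⟩, hv⟩
    exact f_eq_zero t.symm v hv
  have h3 := Submodule.finrank_sup_add_finrank_inf_eq (LinearMap.range (toEnd ℂ L M f))
    (LinearMap.ker (toEnd ℂ L M e))
  have h4 := Submodule.finrank_sup_add_finrank_inf_eq (LinearMap.range (toEnd ℂ L M e))
    (LinearMap.ker (toEnd ℂ L M f))
  rw [h1, finrank_bot] at h3
  rw [h2, finrank_bot] at h4
  have h5 := LinearMap.finrank_range_add_finrank_ker (toEnd ℂ L M e)
  have h6 := LinearMap.finrank_range_add_finrank_ker (toEnd ℂ L M f)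
  have h7 := Submodule.finrank_le (LinearMap.range (toEnd ℂ L M e) ⊔ LinearMap.ker (toEnd ℂ L M f))
  have h8 := Submodule.finrank_le (LinearMap.range (toEnd ℂ L M f) ⊔ LinearMap.ker (toEnd ℂ L M e))
  have h9 : LinearMap.range (toEnd ℂ L M f) ⊔ LinearMap.ker (toEnd ℂ L M e) = ⊤ :=
    Submodule.eq_top_of_finrank_eq (by omega)
  obtain ⟨_, ⟨z, rfl⟩, w, hw, h⟩ := Submodule.mem_sup.1 (h9 ▸ Submodule.mem_top (x := y))
  exact ⟨z, w, h.symm, hw⟩

lemma exists_top [FiniteDimensional ℂ M] [Nontrivial M] (t : IsSl2Triple h e f) :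
    ∃ (N : ℕ) (v : M), toEnd ℂ L M e ^ (N + 1) = 0 ∧
      t.HasPrimitiveVectorWith ((toEnd ℂ L M e ^ N) v) (N : ℂ) := by
  obtain ⟨N, h1, h2⟩ := Nat.exists_not_and_succ_of_not_zero_of_exists
    (p := fun R => toEnd ℂ L M e ^ R = 0) (by simp) (nilp t)
  obtain ⟨v, hv⟩ : ∃ v, (toEnd ℂ L M e ^ N) v ≠ 0 := by
    by_contra! h3
    exact h1 (LinearMap.ext h3)
  refine ⟨N, v, h2, hv, ?_, ?_⟩
  · have h3 := e_pow_f t N v
    rw [h2, LinearMap.zero_apply, LinearMap.zero_apply, lie_zero, zero_add, eq_comm,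
      smul_eq_zero] at h3
    have h4 := h3.resolve_left (Nat.cast_add_one_ne_zero N)
    rw [map_add, map_smul] at h4
    rw [h_e_pow t, eq_neg_of_add_eq_zero_left h4]
    module
  · rw [IsSl2Triple.lie_e_pow_toEnd_e, h2]
    rfl

/-- divided powers of `f` applied to a vector -/
noncomputable def dv (f : L) (u : M) (j : ℕ) : M := ((j.factorial : ℂ)⁻¹) • (toEnd ℂ L M f ^ j) u

lemma dv_zero (u : M) : dv f u 0 = u := by simp [dv]

lemma f_dv (u : M) (j : ℕ) : ⁅f, dv f u j⁆ = (j + 1 : ℂ) • dv f u (j + 1) := by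
  have : (j + 1 : ℂ) ≠ 0 := Nat.cast_add_one_ne_zero j
  simp only [dv, lie_smul, smul_smul, pow_succ', Module.End.mul_apply, toEnd_apply_apply,
    Nat.factorial_succ]
  congr 1
  push_cast
  field_simp

variable {t : IsSl2Triple h e f} {u : M} {N : ℕ}

lemma h_dv (P : t.HasPrimitiveVectorWith u (N : ℂ)) (j : ℕ) :
    ⁅h, dv f u j⁆ = (N - 2 * j : ℂ) • dv f u j := by
  rw [dv, lie_smul, P.lie_h_pow_toEnd_f, smul_comm]

lemma e_dv (P : t.HasPrimitiveVectorWith u (N : ℂ)) (j : ℕ) :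
    ⁅e, dv f u (j + 1)⁆ = (N - j : ℂ) • dv f u j := by
  have : (j + 1 : ℂ) ≠ 0 := Nat.cast_add_one_ne_zero j
  rw [dv, lie_smul, P.lie_e_pow_succ_toEnd_f, dv, smul_smul, smul_smul, Nat.factorial_succ]
  congr 1
  push_cast
  field_simp

lemma dv_ne_zero (P : t.HasPrimitiveVectorWith u (N : ℂ)) {j : ℕ} (hj : j ≤ N) : dv f u j ≠ 0 :=
  smul_ne_zero (inv_ne_zero (by exact_mod_cast j.factorial_ne_zero))
    (P.pow_toEnd_f_ne_zero_of_eq_nat rfl hj)

lemma dv_top [FiniteDimensional ℂ M] (P : t.HasPrimitiveVectorWith u (N : ℂ)) :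
    dv f u (N + 1) = 0 := by
  rw [dv, P.pow_toEnd_f_eq_zero_of_eq_nat rfl, smul_zero]

lemma wt_inj (N : ℕ) : Function.Injective fun j : Fin (N + 1) => ((N : ℂ) - 2 * (j : ℕ)) := by
  intro a b hab
  simp only [sub_right_inj, mul_eq_mul_left_iff, Nat.cast_inj, OfNat.ofNat_ne_zero,
    or_false] at hab
  exact Fin.ext hab

lemma dv_indep (P : t.HasPrimitiveVectorWith u (N : ℂ)) :
    LinearIndependent ℂ fun j : Fin (N + 1) => dv f u j :=
  Module.End.eigenvectors_linearIndependent' (toEnd ℂ L M h) _ (wt_inj N) _ fun j =>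
    ⟨Module.End.mem_eigenspace_iff.2 (h_dv P j), dv_ne_zero P (Nat.lt_succ_iff.1 j.2)⟩

theorem irred_span [FiniteDimensional ℂ M] (P : t.HasPrimitiveVectorWith u (N : ℂ)) :
    ∃ V : Submodule ℂ M, finrank ℂ V = N + 1 ∧ (∀ v ∈ V, ⁅e, v⁆ ∈ V ∧ ⁅h, v⁆ ∈ V ∧ ⁅f, v⁆ ∈ V) ∧
      (∀ W : Submodule ℂ M, W ≤ V → (∀ w ∈ W, ⁅e, w⁆ ∈ W ∧ ⁅h, w⁆ ∈ W ∧ ⁅f, w⁆ ∈ W) →
        W = ⊥ ∨ W = V) ∧ ∀ j : Fin (N + 1), dv f u j ∈ V := by
  set V := Submodule.span ℂ (Set.range fun j : Fin (N + 1) => dv f u j) with hV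
  have hm : ∀ j : ℕ, j ≤ N + 1 → dv f u j ∈ V := fun j hj => by
    rcases Nat.lt_or_eq_of_le hj with h1 | rfl
    · exact Submodule.subset_span ⟨⟨j, h1⟩, rfl⟩
    · rw [dv_top P]; exact V.zero_mem
  refine ⟨V, ?_, fun v hv => ?_, fun W hW hs => ?_, fun j => hm j j.2.le⟩
  · rw [finrank_span_eq_card (dv_indep P), Fintype.card_fin]
  · induction hv using Submodule.span_induction with
    | mem x hx =>
      obtain ⟨⟨j, hj⟩, rfl⟩ := hx
      refine ⟨?_, ?_, ?_⟩
      · cases j with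
        | zero => simp [dv_zero, P.lie_e]
        | succ j => rw [e_dv P]; exact V.smul_mem _ (hm _ (by omega))
      · rw [h_dv P]; exact V.smul_mem _ (hm _ (by omega))
      · rw [f_dv]; exact V.smul_mem _ (hm _ (by omega))
    | zero => simp
    | add x y _ _ hx hy =>
      simp only [lie_add]
      exact ⟨V.add_mem hx.1 hy.1, V.add_mem hx.2.1 hy.2.1, V.add_mem hx.2.2 hy.2.2⟩
    | smul c x _ hx =>
      simp only [lie_smul]
      exact ⟨V.smul_mem _ hx.1, V.smul_mem _ hx.2.1, V.smul_mem _ hx.2.2⟩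
  · by_cases h0 : W = ⊥
    · exact Or.inl h0
    right
    obtain ⟨w, hw, hw0⟩ := Submodule.exists_mem_ne_zero_of_ne_bot h0
    obtain ⟨c, rfl⟩ := (Submodule.mem_span_range_iff_exists_fun ℂ).1 (hW hw)
    have h1 := mem_of_sum_eigen (toEnd ℂ L M h) W (fun v hv => (hs v hv).2.1) _ (wt_inj N) univ
      (fun j : Fin (N + 1) => c j • dv f u j) (fun j => by
        rw [map_smul, toEnd_apply_apply, h_dv P, smul_comm]) hw
    obtain ⟨j, hj⟩ : ∃ j, c j ≠ 0 := by
      by_contra! h2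
      simp [h2] at hw0
    have h2 : dv f u j ∈ W := (W.smul_mem_iff hj).1 (h1 j (Finset.mem_univ _))
    have h3 : ∀ j : ℕ, j ≤ N → dv f u j ∈ W → dv f u 0 ∈ W := by
      intro j
      induction j with
      | zero => exact fun _ h => h
      | succ j ih =>
        intro hj h
        have h4 := (hs _ h).1
        rw [e_dv P] at h4
        refine ih (by omega) ((W.smul_mem_iff ?_).1 h4)
        rw [sub_ne_zero, Ne, Nat.cast_inj]
        omega
    have h4 : ∀ j : ℕ, dv f u j ∈ W := by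
      intro i
      induction i with
      | zero => exact h3 j (Nat.lt_succ_iff.1 j.2) h2
      | succ i ih =>
        have h5 := (hs _ ih).2.2
        rw [f_dv] at h5
        exact (W.smul_mem_iff (Nat.cast_add_one_ne_zero i)).1 h5
    refine le_antisymm hW (Submodule.span_le.2 ?_)
    rintro _ ⟨i, rfl⟩
    exact h4 i

end Pool.Agent.MP_a0341c_al
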