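import Pool.Agent.MP_a0341c_al.Std

/-! The action of `sl₂` on polynomials and the scalar by which the standard polynomial acts. -/

namespace Pool.Agent.MP_a0341c_al

open Polynomial Finset Equiv

section Inter
variable {M M' : Type*} [AddCommGroup M] [AddCommGroup M']

/-- pairs of endomorphisms intertwined by `I` -/
def inter (I : M →ₗ[ℤ] M') : Subring (Module.End ℤ M × Module.End ℤ M') where
  carrier := {p | ∀ v, I (p.1 v) = p.2 (I v)}
  mul_mem' := fun {a b} ha hb v => by
    show I (a.1 (b.1 v)) = a.2 (b.2 (I v))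
    rw [ha, hb]
  one_mem' := fun v => rfl
  add_mem' := fun {a b} ha hb v => by
    show I (a.1 v + b.1 v) = a.2 (I v) + b.2 (I v)
    rw [map_add, ha, hb]
  zero_mem' := fun v => by
    show I 0 = 0
    simp
  neg_mem' := fun {a} ha v => by
    show I (-a.1 v) = -a.2 (I v)
    rw [map_neg, ha]

lemma mem_inter {I : M →ₗ[ℤ] M'} {a : Module.End ℤ M} {b : Module.End ℤ M'} :
    (a, b) ∈ inter I ↔ ∀ v, I (a v) = b (I v) := Iff.rfl

lemma inter_SS {I : M →ₗ[ℤ] M'} {e h f : Module.End ℤ M} {e' h' f' : Module.End ℤ M'}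
    (r : e * f - f * e = h) (r' : e' * f' - f' * e' = h')
    (he : (e, e') ∈ inter I) (hf : (f, f') ∈ inter I) (k : ℕ) :
    (SS e h f k, SS e' h' f' k) ∈ inter I := by
  have hh : (h, h') ∈ inter I := by
    have := (inter I).sub_mem ((inter I).mul_mem he hf) ((inter I).mul_mem hf he)
    rw [← r, ← r']
    exact this
  let z := SS (⟨_, he⟩ : inter I) ⟨_, hh⟩ ⟨_, hf⟩ k
  have h1 := map_SS ((RingHom.fst _ _).comp (inter I).subtype) ⟨_, he⟩ ⟨_, hh⟩ ⟨_, hf⟩ k
  have h2 := map_SS ((RingHom.snd _ _).comp (inter I).subtype) ⟨_, he⟩ ⟨_, hh⟩ ⟨_, hf⟩ k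
  have h3 : (SS e h f k, SS e' h' f' k) = z.1 := Prod.ext h1.symm h2.symm
  rw [h3]
  exact z.2

end Inter

section Poly
variable {R : Type*} [CommRing R]

/-- raising operator -/
noncomputable def eO (l : R) : Module.End ℤ R[X] where
  toFun q := C l * X * q - X ^ 2 * derivative q
  map_add' p q := by simp only [derivative_add]; ring
  map_smul' a q := by simp [zsmul_eq_mul]; ring

/-- lowering operator -/
noncomputable def fO (R : Type*) [CommRing R] : Module.End ℤ R[X] where
  toFun q := derivative q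
  map_add' p q := by simp only [derivative_add]
  map_smul' a q := by simp [zsmul_eq_mul]

/-- weight operator -/
noncomputable def hO (l : R) : Module.End ℤ R[X] where
  toFun q := 2 * X * derivative q - C l * q
  map_add' p q := by simp only [derivative_add]; ring
  map_smul' a q := by simp [zsmul_eq_mul]; ring

lemma eO_apply (l : R) (q : R[X]) : eO l q = C l * X * q - X ^ 2 * derivative q := rfl
lemma fO_apply (q : R[X]) : fO R q = derivative q := rfl
lemma hO_apply (l : R) (q : R[X]) : hO l q = 2 * X * derivative q - C l * q := rfl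

lemma relO (l : R) : Rel (eO l) (hO l) (fO R) := by
  have d2 : derivative (2 : R[X]) = 0 := by
    have : (2 : R[X]) = C 2 := rfl
    rw [this, derivative_C]
  refine ⟨?_, ?_, ?_⟩
  · ext1 q
    simp only [two_mul, LinearMap.sub_apply, LinearMap.add_apply, Module.End.mul_apply, eO_apply,
      hO_apply, derivative_sub, derivative_mul, derivative_C, derivative_X, derivative_add, pow_two,
      d2]
    ring
  · ext1 q
    simp only [two_mul, LinearMap.sub_apply, LinearMap.add_apply, LinearMap.neg_apply,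
      Module.End.mul_apply, fO_apply,
      hO_apply, derivative_sub, derivative_mul, derivative_C, derivative_X, derivative_add, pow_two,
      d2]
    ring
  · ext1 q
    simp only [two_mul, LinearMap.sub_apply, LinearMap.add_apply, Module.End.mul_apply, eO_apply,
      fO_apply,
      hO_apply, derivative_sub, derivative_mul, derivative_C, derivative_X, derivative_add, pow_two,
      d2]
    ring

lemma eO_monomial (l r : R) (i : ℕ) :
    eO l (monomial i r) = monomial (i + 1) ((l - i) * r) := by
  rw [eO_apply, derivative_monomial]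
  cases i with
  | zero => simp [← C_mul_X_pow_eq_monomial]; ring
  | succ i =>
    simp only [← C_mul_X_pow_eq_monomial, Nat.add_sub_cancel, map_mul, map_sub]
    ring

lemma eO_pow_monomial (l r : R) (i k : ℕ) :
    (eO l ^ k) (monomial i r) = monomial (i + k) ((∏ j ∈ range k, (l - (i + j : ℕ))) * r) := by
  induction k with
  | zero => simp
  | succ k ih =>
    rw [pow_succ', Module.End.mul_apply, ih, eO_monomial, Finset.prod_range_succ]
    congr 1
    ring

/-- the standard polynomial as an operator on polynomials -/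
noncomputable def SO (l : R) (k : ℕ) : Module.End ℤ R[X] := SS (eO l) (hO l) (fO R) k

lemma SO_C_mul (l r : R) (k : ℕ) (q : R[X]) : SO l k (C r * q) = C r * SO l k q := by
  let I : R[X] →ₗ[ℤ] R[X] := (LinearMap.mulLeft ℤ (C r))
  have := inter_SS (I := I) (relO l).ef (relO l).ef
    (fun v => by simp [I, eO_apply]; ring) (fun v => by simp [I, fO_apply]) k
  exact (this q).symm

lemma SO_map {R' : Type*} [CommRing R'] (φ : R →+* R') (l : R) (k : ℕ) (q : R[X]) :
    (SO l k q).map φ = SO (φ l) k (q.map φ) := by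
  let I : R[X] →ₗ[ℤ] R'[X] := (mapRingHom φ).toAddMonoidHom.toIntLinearMap
  have := inter_SS (I := I) (relO l).ef (relO (φ l)).ef
    (fun v => by simp [I, eO_apply]) (fun v => by simp [I, fO_apply]) k
  exact this q

end Poly

/-- the scalar, as a polynomial in the dimension -/
noncomputable def PP (k : ℕ) : ℤ[X] := (SO (X - 1 : ℤ[X]) k 1).coeff 0

lemma SO_univ_one (k : ℕ) : SO (X - 1 : ℤ[X]) k 1 = C (PP k) := by
  apply eq_C_of_derivative_eq_zero
  have := congrArg (fun T => T 1) (f_SS (relO (X - 1 : ℤ[X])) k)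
  simp only [Module.End.mul_apply, fO_apply, derivative_one, map_zero] at this
  exact this

lemma SO_univ_X_pow (k i : ℕ) : SO (X - 1 : ℤ[X]) k (X ^ i) = C (PP k) * X ^ i := by
  set l : ℤ[X] := X - 1 with hl
  have hc : Commute (eO l ^ i) (SO l k) := (Commute.pow_left (e_SS (relO l) k) i)
  have h1 := congrArg (fun T => T 1) hc.eq
  simp only [Module.End.mul_apply] at h1
  have h2 : (1 : ℤ[X][X]) = monomial 0 1 := rfl
  rw [SO_univ_one, ← monomial_zero_left, eO_pow_monomial] at h1
  rw [h2, eO_pow_monomial, ← C_mul_X_pow_eq_monomial, ← C_mul_X_pow_eq_monomial, SO_C_mul,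
    mul_one, zero_add, map_mul, mul_assoc] at h1
  have h3 : (C (∏ j ∈ range i, (l - (0 + j : ℕ))) : ℤ[X][X]) ≠ 0 := by
    rw [C_ne_zero, Finset.prod_ne_zero_iff]
    intro j _ h0
    have := congrArg (fun q : ℤ[X] => q.coeff 1) h0
    rw [hl, ← C_eq_natCast, coeff_sub, coeff_sub, coeff_C, coeff_one, coeff_X_one] at this
    simp at this
  exact (mul_left_cancel₀ h3 h1).symm

lemma SO_eq {R : Type*} [CommRing R] (n : ℤ) (k : ℕ) (q : R[X]) :
    SO ((n : R) - 1) k q = C (((PP k).eval n : ℤ) : R) * q := by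
  let φ : ℤ[X] →+* R := (Int.castRingHom R).comp (evalRingHom n)
  have h1 : ∀ i : ℕ, SO ((n : R) - 1) k (X ^ i) = C (((PP k).eval n : ℤ) : R) * X ^ i := by
    intro i
    have := SO_map φ (X - 1) k (X ^ i)
    rw [SO_univ_X_pow] at this
    simpa [φ] using this.symm
  induction q using Polynomial.induction_on' with
  | add p q hp hq => rw [map_add, hp, hq, mul_add]
  | monomial i r => rw [← C_mul_X_pow_eq_monomial, SO_C_mul, h1]; ring

lemma iter_eO {R : Type*} [CommRing R] (l : R) (n : ℕ) (q : R[X]) :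
    derivative^[n + 1] (eO l q) = eO (l - 2 * (n + 1)) (derivative^[n + 1] q) +
      C (((n : R) + 1) * (l - n)) * derivative^[n] q := by
  have d1 : ∀ (l : R) (q : R[X]), derivative (eO l q) = eO (l - 2) (derivative q) + C l * q := by
    intro l q
    have : (C 2 : R[X]) = 2 := rfl
    simp only [eO_apply, derivative_sub, derivative_mul, derivative_C, derivative_X, pow_two,
      map_sub, this]
    ring
  induction n with
  | zero => simpa using d1 l q
  | succ n ih =>
    rw [Function.iterate_succ_apply', ih, derivative_add, d1, derivative_C_mul,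
      ← Function.iterate_succ_apply' derivative n, ← Function.iterate_succ_apply' derivative (n + 1)]
    have e1 : l - 2 * ((n : R) + 1) - 2 = l - 2 * (((n + 1 : ℕ) : R) + 1) := by push_cast; ring
    rw [e1, add_assoc, ← add_mul, ← C_add]
    congr 3
    push_cast
    ring

lemma PP_even (k n : ℕ) : (PP k).eval (-(n : ℤ)) = (PP k).eval (n : ℤ) := by
  cases n with
  | zero => simp
  | succ n =>
    let I : ℤ[X] →ₗ[ℤ] ℤ[X] := derivative ^ (n + 1)
    have hI : ∀ q, I q = derivative^[n + 1] q := fun q => by simp only [I, Module.End.pow_apply]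
    have := inter_SS (I := I) (relO (((n + 1 : ℕ) : ℤ) - 1)).ef (relO (-((n + 1 : ℕ) : ℤ) - 1)).ef
      (fun v => by
        show I (eO _ v) = eO _ (I v)
        rw [hI, hI, iter_eO]
        have e1 : ((n + 1 : ℕ) : ℤ) - 1 - n = 0 := by push_cast; ring
        have e2 : ((n + 1 : ℕ) : ℤ) - 1 - 2 * (n + 1) = -((n + 1 : ℕ) : ℤ) - 1 := by push_cast; ring
        rw [e1, e2]
        simp)
      (fun v => by
        show I (derivative v) = derivative (I v)
        rw [hI, hI, ← Function.iterate_succ_apply, Function.iterate_succ_apply']) k (X ^ (n + 1))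
    have h1 := SO_eq (R := ℤ) ((n + 1 : ℕ) : ℤ) k
    have h2 := SO_eq (R := ℤ) (-((n + 1 : ℕ) : ℤ)) k
    simp only [Int.cast_id] at h1 h2
    change I (SO _ k _) = SO _ k (I _) at this
    rw [h1, h2, hI, hI, iterate_derivative_C_mul] at this
    have h3 : derivative^[n + 1] (X ^ (n + 1) : ℤ[X]) ≠ 0 := by
      rw [iterate_derivative_X_pow_eq_C_mul]
      simp [Nat.descFactorial_self, Nat.factorial_ne_zero]
    exact (C_injective (mul_right_cancel₀ h3 this)).symm

/-! ### Matrices -/

section Mat
variable {R : Type*} [CommRing R] [DecidableEq R]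

/-- matrices as additive endomorphisms -/
def act (R : Type*) [CommRing R] (n : ℕ) :
    Matrix (Fin n) (Fin n) R →+* Module.End ℤ (Fin n → R) where
  toFun A := (Matrix.mulVecLin A).restrictScalars ℤ
  map_one' := LinearMap.ext fun v => by simp
  map_mul' A B := LinearMap.ext fun v => by simp
  map_zero' := LinearMap.ext fun v => by simp
  map_add' A B := LinearMap.ext fun v => by simp

omit [DecidableEq R] in
lemma act_apply {n : ℕ} (A : Matrix (Fin n) (Fin n) R) (v : Fin n → R) :
    act R n A v = A.mulVec v := rfl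

/-- coefficient vectors as polynomials -/
noncomputable def emb (R : Type*) [CommRing R] [DecidableEq R] (n : ℕ) :
    (Fin n → R) →ₗ[ℤ] R[X] := (ofFn n).restrictScalars ℤ

lemma emb_apply {n : ℕ} (v : Fin n → R) : emb R n v = ∑ i : Fin n, monomial i (v i) :=
  ofFn_eq_sum_monomial v

lemma inter_of_col {n : ℕ} (A : Matrix (Fin n) (Fin n) R) (T : Module.End ℤ R[X])
    (h : ∀ (j : Fin n) (r : R), T (monomial j r) = ∑ i : Fin n, monomial i (A i j * r)) :
    (act R n A, T) ∈ inter (emb R n) := by
  intro v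
  show emb R n (A.mulVec v) = T (emb R n v)
  rw [emb_apply, emb_apply, map_sum]
  simp only [h, Matrix.mulVec, dotProduct, map_sum]
  rw [Finset.sum_comm]

lemma eq_of_inter {n : ℕ} {A B : Matrix (Fin n) (Fin n) R} {T : Module.End ℤ R[X]}
    (hA : (act R n A, T) ∈ inter (emb R n)) (hB : (act R n B, T) ∈ inter (emb R n)) : A = B := by
  have : ∀ v, A.mulVec v = B.mulVec v := fun v =>
    injective_ofFn n ((hA v).trans (hB v).symm)
  exact Matrix.toLin'.injective (LinearMap.ext this)

/-- raising matrix -/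
def eM (R : Type*) [CommRing R] (n : ℕ) : Matrix (Fin n) (Fin n) R :=
  fun i j => if (i : ℕ) = j + 1 then (n : R) - 1 - (j : ℕ) else 0

/-- lowering matrix -/
def fM (R : Type*) [CommRing R] (n : ℕ) : Matrix (Fin n) (Fin n) R :=
  fun i j => if (i : ℕ) + 1 = j then ((j : ℕ) : R) else 0

/-- weight matrix -/
def hM (R : Type*) [CommRing R] (n : ℕ) : Matrix (Fin n) (Fin n) R :=
  eM R n * fM R n - fM R n * eM R n

/-- translation matrix -/
def gM (n : ℕ) (a : R) : Matrix (Fin n) (Fin n) R :=
  fun i j => a ^ ((j : ℕ) - i) * ((j : ℕ).choose i : R)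

lemma inter_eM (n : ℕ) : (act R n (eM R n), eO ((n : R) - 1)) ∈ inter (emb R n) := by
  refine inter_of_col _ _ fun j r => ?_
  rw [eO_monomial]
  by_cases hj : (j : ℕ) + 1 < n
  · rw [Finset.sum_eq_single ⟨j + 1, hj⟩]
    · simp [eM]
    · intro b _ hb
      have : (b : ℕ) ≠ j + 1 := fun h => hb (Fin.ext h)
      simp [eM, this]
    · simp
  · have h1 : n = j + 1 := by have := j.2; omega
    have h2 : (n : R) - 1 - (j : ℕ) = 0 := by
      have : (n : R) = ((j + 1 : ℕ) : R) := congrArg _ h1
      rw [this]; push_cast; ring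
    simp [eM, h2]

lemma inter_fM (n : ℕ) : (act R n (fM R n), fO R) ∈ inter (emb R n) := by
  refine inter_of_col _ _ fun j r => ?_
  rw [fO_apply, derivative_monomial]
  obtain ⟨j, hj⟩ := j
  cases j with
  | zero => simp [fM]
  | succ j =>
    rw [Finset.sum_eq_single ⟨j, by omega⟩]
    · simp [fM, mul_comm]
    · intro b _ hb
      have : (b : ℕ) ≠ j := fun h => hb (Fin.ext h)
      simp [fM, this]
    · simp

lemma inter_hM (n : ℕ) : (act R n (hM R n), hO ((n : R) - 1)) ∈ inter (emb R n) := by
  have := (inter (emb R n)).sub_mem ((inter (emb R n)).mul_mem (inter_eM n) (inter_fM n))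
    ((inter (emb R n)).mul_mem (inter_fM n) (inter_eM n))
  rw [← (relO ((n : R) - 1)).ef, hM, map_sub, map_mul, map_mul]
  exact this

lemma inter_gM (n : ℕ) (a : R) :
    (act R n (gM n a), (taylor a).restrictScalars ℤ) ∈ inter (emb R n) := by
  refine inter_of_col _ _ fun j r => ?_
  show taylor a (monomial j r) = _
  rw [taylor_monomial]
  ext m
  rw [coeff_C_mul, coeff_X_add_C_pow, finsetSum_coeff]
  simp only [coeff_monomial, gM]
  by_cases hm : m < n
  · rw [Finset.sum_eq_single ⟨m, hm⟩]
    · simp [mul_comm]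
    · intro b _ hb
      have : (b : ℕ) ≠ m := fun h => hb (Fin.ext h)
      simp [this]
    · simp
  · rw [Nat.choose_eq_zero_of_lt (by have := j.2; omega)]
    simp only [Nat.cast_zero, mul_zero]
    refine (Finset.sum_eq_zero fun i _ => ?_).symm
    have : (i : ℕ) ≠ m := by have := i.2; omega
    simp [this]

lemma SS_mat (n k : ℕ) :
    SS (eM R n) (hM R n) (fM R n) k = (((PP k).eval (n : ℤ) : ℤ) : R) • (1 : Matrix _ _ R) := by
  have h1 := inter_SS (I := emb R n) (h := act R n (hM R n)) (by simp [hM]) (relO ((n : R) - 1)).ef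
    (inter_eM n) (inter_fM n) k
  rw [← map_SS] at h1
  refine eq_of_inter h1 fun v => ?_
  have h2 := SO_eq (R := R) (n : ℤ) k (emb R n v)
  rw [Int.cast_natCast] at h2
  show emb R n (Matrix.mulVec _ v) = SO _ k (emb R n v)
  rw [h2, Matrix.smul_mulVec, Matrix.one_mulVec, ← smul_eq_C_mul]
  exact (ofFn n).map_smul _ _

lemma eM_pow (n k : ℕ) : eM R n ^ k = fun i j : Fin n =>
    if (i : ℕ) = j + k then ∏ s ∈ range k, ((n : R) - 1 - (j + s : ℕ)) else 0 := by
  have h1 := (inter (emb R n)).pow_mem (inter_eM n) k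
  rw [Prod.pow_mk, ← map_pow] at h1
  refine eq_of_inter h1 (inter_of_col _ _ fun j r => ?_)
  rw [eO_pow_monomial]
  by_cases hj : (j : ℕ) + k < n
  · rw [Finset.sum_eq_single ⟨j + k, hj⟩]
    · simp
    · intro b _ hb
      have : (b : ℕ) ≠ j + k := fun h => hb (Fin.ext h)
      simp [this]
    · simp
  · have h2 : ∏ s ∈ range k, ((n : R) - 1 - (j + s : ℕ)) = 0 := by
      have hjn := j.2
      refine Finset.prod_eq_zero (i := n - 1 - j) (Finset.mem_range.2 (by omega)) ?_
      have : (n : R) = ((j + (n - 1 - j) + 1 : ℕ) : R) := congrArg _ (by omega)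
      rw [this]
      push_cast
      ring
    simp only [h2]
    simp

end Mat

lemma PP_small (k n : ℕ) (h1 : 1 ≤ n) (h2 : n ≤ k) : (PP k).eval (n : ℤ) = 0 := by
  have h3 := SS_mat (R := ℤ) n k
  have h4 : SS (eM ℤ n) (hM ℤ n) (fM ℤ n) k = 0 := by
    unfold SS
    refine AlternatingMap.map_coord_zero _ 0 ?_
    show uu _ _ _ k 0 = 0
    rw [uu_zero, eM_pow]
    funext i j
    have : (i : ℕ) ≠ j + k := by have := i.2; omega
    simp [this]
  rw [h4] at h3
  have := congrFun (congrFun h3 ⟨0, h1⟩) ⟨0, h1⟩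
  simpa using this.symm

end Pool.Agent.MP_a0341c_al
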